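import Mathlib
import Pool.Agent.Lib.MP_8c4e2c_gt.Space
import Pool.Agent.Lib.MP_8c4e2c_gt.BN.PrOne
import Pool.Agent.Lib.MP_8c4e2c_gt.EN.Suslin
import Pool.Agent.Lib.MP_8c4e2c_gt.EN.Cof
import Pool.Agent.Lib.MP_8c4e2c_gt.EN.Strong
import Pool.Agent.Lib.MP_8c4e2c_gt.EN.HL

set_option autoImplicit false

open Set Filter Topology

namespace Pool.Agent.Results.MP_8c4e2c_gt.EntangledOrSuslin

/-- The bounding number `𝔟` equals `ℵ₁`: some family of at most `ℵ₁` functions `ℕ → ℕ` is not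
eventually dominated by a single function. -/
def BoundingNumberLeAlephOne : Prop :=
  ∃ F : Set (ℕ → ℕ), Cardinal.mk F ≤ Cardinal.aleph 1 ∧
    ∀ g : ℕ → ℕ, ∃ f ∈ F, ¬ ∀ᶠ n in atTop, f n ≤ g n

/-- The set `E` of reals is entangled: for every uncountable family of injective `n`-tuples of
elements of `E` with pairwise disjoint ranges and every type `t` there are two tuples `a`, `b` of
the family such that, for all `p`, `a p < b p` if `t p` is true and `b p < a p` otherwise. -/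
def IsEntangled (E : Set ℝ) : Prop :=
  ∀ (n : ℕ) (𝒜 : Set (Fin n → ℝ)), ¬ 𝒜.Countable →
    (∀ a ∈ 𝒜, Function.Injective a ∧ ∀ p, a p ∈ E) →
    (∀ a ∈ 𝒜, ∀ b ∈ 𝒜, a ≠ b → ∀ p q, a p ≠ b q) → ∀ t : Fin n → Bool,
      ∃ a ∈ 𝒜, ∃ b ∈ 𝒜, ∀ p, if t p = true then a p < b p else b p < a p

/-- The well-ordered set of order type `ω₁`. -/
abbrev OmegaOne : Type := (Cardinal.aleph 1).ord.ToType

/-- `c` witnesses `Pr₁(ω₁, ω₁, ω, ω)`: every uncountable family of pairwise disjoint finite subsets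
of `ω₁` has, for every color `k`, two members `a`, `b` with `a` below `b` such that all pairs from
`a × b` have color `k`. -/
def IsStrongColoring (c : OmegaOne → OmegaOne → ℕ) : Prop :=
  ∀ 𝒜 : Set (Finset OmegaOne), ¬ 𝒜.Countable → 𝒜.PairwiseDisjoint id → ∀ k : ℕ,
    ∃ a ∈ 𝒜, ∃ b ∈ 𝒜, ∀ α ∈ a, ∀ β ∈ b, α < β ∧ c α β = k

/-- The nodes of the tree `T(e)`: the pair `(δ, s)` stands for the restriction of `s` to `[0, δ)`,
which differs from `e δ` at finitely many places only. -/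
def IsNode (e : OmegaOne → OmegaOne → ℕ) (x : OmegaOne × (OmegaOne → ℕ)) : Prop :=
  {α | α < x.1 ∧ x.2 α ≠ e x.1 α}.Finite

/-- The tree order: the node `y` extends the node `x`. -/
def Extends (x y : OmegaOne × (OmegaOne → ℕ)) : Prop :=
  x.1 ≤ y.1 ∧ ∀ α < x.1, x.2 α = y.2 α

/-- `e` gives a coherent Suslin tree: the functions `e δ : [0, δ) → ℕ` are coherent modulo finite
sets, and the tree `T(e)` of their finite modifications has no uncountable antichain. -/
def IsCoherentSuslin (e : OmegaOne → OmegaOne → ℕ) : Prop :=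
  (∀ β γ, β < γ → {α | α < β ∧ e β α ≠ e γ α}.Finite) ∧
    ∀ 𝒜 : Set (OmegaOne × (OmegaOne → ℕ)), (∀ x ∈ 𝒜, IsNode e x) →
      (∀ x ∈ 𝒜, ∀ y ∈ 𝒜, x ≠ y → ¬ Extends x y) → 𝒜.Countable

lemma mk_omegaOne : Cardinal.mk OmegaOne = Cardinal.aleph 1 := Cardinal.mk_ord_toType _

lemma countable_Iic (i : OmegaOne) : (Iic i).Countable := by
  have h1 : (Iio i).Countable := by
    rw [← Cardinal.le_aleph0_iff_set_countable]
    have := Cardinal.mk_Iio_lt i (by simp)
    simpa using this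
  rw [← Iio_insert]
  exact h1.insert i

instance : Uncountable OmegaOne := by
  rw [← Cardinal.aleph0_lt_mk_iff, mk_omegaOne]
  exact Cardinal.aleph0_lt_aleph_one

lemma exists_reals : ∃ r : OmegaOne → ℕ → Bool, Function.Injective r := by
  have h1 : Cardinal.mk OmegaOne ≤ Cardinal.mk (ℕ → Bool) := by
    rw [mk_omegaOne]
    refine Cardinal.aleph_one_le_continuum.trans ?_
    simp
  obtain ⟨f⟩ := (Cardinal.le_def _ _).1 h1
  exact ⟨f, f.injective⟩

lemma strong_of_bounding (h : BoundingNumberLeAlephOne) :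
    ∃ c : OmegaOne → OmegaOne → ℕ, Pool.Agent.Lib.MP_8c4e2c_gt.BN.IsStrongColoring c := by
  obtain ⟨F, hF, hF'⟩ := h
  have hne : Nonempty F := by
    obtain ⟨f, hf, -⟩ := hF' fun _ => 0
    exact ⟨⟨f, hf⟩⟩
  obtain ⟨φ⟩ := (Cardinal.le_def F OmegaOne).1 (by rw [mk_omegaOne]; exact hF)
  set e : OmegaOne → F := Function.invFun φ with he
  have hsurj : Function.Surjective e := Function.invFun_surjective φ.injective
  obtain ⟨f, hf⟩ := Pool.Agent.Lib.MP_8c4e2c_gt.BN.exists_chain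
    (fun i : OmegaOne => (countable_Iic i).mono Iio_subset_Iic_self) (fun i => (e i).1) (by
      intro g
      obtain ⟨f, hf, hfg⟩ := hF' g
      obtain ⟨i, hi⟩ := hsurj ⟨f, hf⟩
      exact ⟨i, by rw [hi]; exact hfg⟩)
  exact Pool.Agent.Lib.MP_8c4e2c_gt.BN.exists_strongColoring countable_Iic hf

lemma pattern_of_entangled (E : Set ℝ) (hE : ¬ E.Countable) (hE' : IsEntangled E) :
    ∃ k : OmegaOne → OmegaOne → ℕ, Pool.Agent.Lib.MP_8c4e2c_gt.EN.IsPattern k := by
  have h1 : Cardinal.mk (OmegaOne × ℕ) ≤ Cardinal.mk E := by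
    rw [Cardinal.mk_prod, mk_omegaOne]
    simp only [Cardinal.lift_id, Cardinal.mk_nat]
    rw [Cardinal.mul_aleph0_eq (Cardinal.aleph0_le_aleph 1)]
    have h2 : Cardinal.aleph0 < Cardinal.mk E := by
      rw [← not_le, Cardinal.le_aleph0_iff_set_countable]
      exact hE
    rw [← Cardinal.succ_aleph0]
    exact Order.succ_le_of_lt h2
  obtain ⟨φ⟩ := (Cardinal.le_def _ _).1 h1
  refine Pool.Agent.Lib.MP_8c4e2c_gt.EN.isPattern_of_entangled countable_Iic hE'
    (fun ξ j => (φ (ξ, j)).1) ?_ fun ξ j => (φ (ξ, j)).2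
  intro x y hxy
  exact φ.injective (Subtype.ext hxy)

lemma space_of_pattern (k : OmegaOne → OmegaOne → ℕ)
    (hk : Pool.Agent.Lib.MP_8c4e2c_gt.EN.IsPattern k) :
    ∃ (X : Type) (_ : TopologicalSpace X) (_ : T35Space X),
      (∀ n : ℕ, HereditarilyLindelofSpace (Fin n → X)) ∧
      (∀ S : Set {f : X → ℝ // Continuous f}, ∃ c ⊆ S, c.Countable ∧ S ⊆ closure c) ∧
      ∀ D : Set {f : X → ℝ // Continuous f}, D.Countable →
        ∃ C : Set {f : X → ℝ // Continuous f}, D ⊆ C ∧ IsSeqClosed C ∧ C ≠ univ := by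
  obtain ⟨r, hr⟩ := exists_reals
  obtain ⟨dec, hdec⟩ := exists_surjective_nat Pool.Agent.Lib.MP_8c4e2c_gt.EN.Tab
  obtain ⟨B, hB⟩ := Pool.Agent.Lib.MP_8c4e2c_gt.BN.exists_not_measurableSet
  have hHL := Pool.Agent.Lib.MP_8c4e2c_gt.EN.hl_pi countable_Iic k hk r dec hdec B
  refine ⟨Pool.Agent.Lib.MP_8c4e2c_gt.BN.Pt OmegaOne,
    Pool.Agent.Lib.MP_8c4e2c_gt.EN.topo k r dec B,
    Pool.Agent.Lib.MP_8c4e2c_gt.EN.t35 k r dec B hr, hHL, ?_, ?_⟩
  · exact @Pool.Agent.Lib.MP_8c4e2c_gt.zenor _ (Pool.Agent.Lib.MP_8c4e2c_gt.EN.topo k r dec B) hHL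
  · exact Pool.Agent.Lib.MP_8c4e2c_gt.EN.exists_seqClosed k r dec B
      (Pool.Agent.Lib.MP_8c4e2c_gt.EN.hl_one k r dec B (hHL 1)) hB

/-- Suppose that `𝔟 = ℵ₁`, or that the continuum has cofinality `ℵ₁`, or that there is an
uncountable entangled set of reals, or a coherent Suslin tree, or a strong coloring of the pairs of
countable ordinals. Then there is a Tychonoff space `X`, all of whose finite powers are hereditarily
Lindelof, such that `C_p(X)` is hereditarily separable but not sequentially separable; moreover every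
countable subset of `C_p(X)` is contained in a proper sequentially closed subset of `C_p(X)`. -/
theorem result
    (h : BoundingNumberLeAlephOne ∨ (Cardinal.continuum.{0}).ord.cof = Cardinal.aleph 1 ∨
      (∃ E : Set ℝ, ¬ E.Countable ∧ IsEntangled E) ∨ (∃ e, IsCoherentSuslin e) ∨
      ∃ c, IsStrongColoring c) :
    ∃ (X : Type) (_ : TopologicalSpace X) (_ : T35Space X),
      (∀ n : ℕ, HereditarilyLindelofSpace (Fin n → X)) ∧
      (∀ S : Set {f : X → ℝ // Continuous f}, ∃ c ⊆ S, c.Countable ∧ S ⊆ closure c) ∧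
      (¬ ∃ D : Set {f : X → ℝ // Continuous f}, D.Countable ∧ seqClosure D = univ) ∧
      ∀ D : Set {f : X → ℝ // Continuous f}, D.Countable →
        ∃ C : Set {f : X → ℝ // Continuous f}, D ⊆ C ∧ IsSeqClosed C ∧ C ≠ univ := by
  have hk : ∃ k : OmegaOne → OmegaOne → ℕ, Pool.Agent.Lib.MP_8c4e2c_gt.EN.IsPattern k := by
    obtain ⟨r, hr⟩ := exists_reals
    rcases h with h | h | h | h | h
    · obtain ⟨c, hc⟩ := strong_of_bounding h
      exact Pool.Agent.Lib.MP_8c4e2c_gt.EN.isPattern_of_strong c hc r hr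
    · obtain ⟨E, hE, hE'⟩ := Pool.Agent.Lib.MP_8c4e2c_gt.EN.exists_entangled mk_omegaOne
        countable_Iic h
      exact pattern_of_entangled E hE hE'
    · obtain ⟨E, hE, hE'⟩ := h
      exact pattern_of_entangled E hE hE'
    · obtain ⟨e, he⟩ := h
      exact Pool.Agent.Lib.MP_8c4e2c_gt.EN.isPattern_of_strong _
        (Pool.Agent.Lib.MP_8c4e2c_gt.EN.strong_of_suslin countable_Iic e he) r hr
    · obtain ⟨c, hc⟩ := h
      exact Pool.Agent.Lib.MP_8c4e2c_gt.EN.isPattern_of_strong c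
        (Pool.Agent.Lib.MP_8c4e2c_gt.BN.isStrongColoring_of_isPrOne countable_Iic c hc) r hr
  obtain ⟨k, hk⟩ := hk
  obtain ⟨X, tX, hX, h1, h2, h3⟩ := space_of_pattern k hk
  refine ⟨X, tX, hX, h1, h2, ?_, h3⟩
  rintro ⟨D, hD, hDu⟩
  obtain ⟨C, hDC, hC, hCu⟩ := h3 D hD
  apply hCu
  rw [eq_univ_iff_forall]
  intro f
  have hf : f ∈ seqClosure D := by
    rw [hDu]
    exact mem_univ f
  obtain ⟨u, hu, hlim⟩ := hf
  exact hC (fun n => hDC (hu n)) hlim

end Pool.Agent.Results.MP_8c4e2c_gt.EntangledOrSuslin
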