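import Pool.Agent.Lib.MP_8c4e2c_gt.CQ.Sq

/-!
# MP_8c4e2c_gt: subspaces of countable products of linearly ordered spaces and spaces with sequentially separable `C_p`

Let `X` be a Tychonoff space which embeds in `(∏ L_n) × (∏ Z_n)`, `L_n` linearly ordered spaces, `Z_n` completely
regular spaces with `C_p(Z_n)` sequentially separable, and let `C_p(X)` be hereditarily separable. Then `C_p(X)` is
sequentially separable.

Outline. (i) For a continuous map `g` of `X` to a linearly ordered space the set of the pairs with `g x < g y` is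
covered by countably many rectangles `g⁻¹ D × g⁻¹ E`, `D` an open lower set, `E` an open upper set; so the preimages
of all rays are `F_σ` in one coarser second countable topology. The same holds for the sets `{f ∘ g > a}`, `f` in
`C(Z_n)`, since `f` is a limit of a sequence from a countable set. (ii) `X` is hereditarily Lindelöf; so all open
sets are `F_σ` in such a topology. (iii) Then all continuous functions are limits of sequences from one countable
set (criterion of Velichko; proved in `Two`, `Ser`, `Vel`).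
-/

set_option autoImplicit false

namespace Pool.Agent.Results.MP_8c4e2c_gt.SubspacesOfOrdered

open Pool.Agent.Lib.MP_8c4e2c_gt.CQ

/-- **Positive answer to Q1 for subspaces of countable products of linearly ordered spaces and spaces with
sequentially separable `C_p`.** The hypothesis `hs` (hereditary separability) and the conclusion (sequential
separability) are those of the frozen statement; `hZ` says that `C_p(Z n)` is sequentially separable. -/
theorem result {X : Type} [TopologicalSpace X] [T35Space X] (L : ℕ → Type) [∀ n, LinearOrder (L n)]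
    [∀ n, TopologicalSpace (L n)] [∀ n, OrderTopology (L n)] (Z : ℕ → Type) [∀ n, TopologicalSpace (Z n)]
    [∀ n, CompletelyRegularSpace (Z n)]
    (hZ : ∀ n, ∃ D : Set {f : Z n → ℝ // Continuous f}, D.Countable ∧ seqClosure D = Set.univ)
    (i : X → (∀ n, L n) × (∀ n, Z n)) (hi : Topology.IsEmbedding i)
    (hs : ∀ S : Set {f : X → ℝ // Continuous f}, ∃ c ⊆ S, c.Countable ∧ S ⊆ closure c) :
    ∃ D : Set {f : X → ℝ // Continuous f}, D.Countable ∧ seqClosure D = Set.univ := by
  have hs' : HS X := hs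
  have hi1 : Continuous fun x => (i x).1 := continuous_fst.comp hi.continuous
  have hi2 : Continuous fun x => (i x).2 := continuous_snd.comp hi.continuous
  have hg : ∀ n, Continuous fun x => (i x).1 n := fun n => (continuous_apply n).comp hi1
  have hg2 : ∀ n, Continuous fun x => (i x).2 n := fun n => (continuous_apply n).comp hi2
  choose e he he' using fun n => ord hs' (hg n)
  choose e₂ he₂ hY₂ using fun n => sq hs' (hZ n) (hg2 n)
  obtain ⟨E₁, φ₁, hE₁, hφ₁, hcomb₁⟩ := cz_comb e he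
  obtain ⟨E₂, φ₂, hE₂, hφ₂, hcomb₂⟩ := cz_comb e₂ he₂
  let e' : ℕ → X → Q := fun k => Nat.casesOn k E₁ fun _ => E₂
  obtain ⟨E, φ, hE, hφ, hcomb⟩ := cz_comb e' (by
    rintro (_ | n)
    · exact hE₁
    · exact hE₂)
  have t1 : ∀ {S : Set X} (n : ℕ), Fs (e n) S → Fs E S := fun n h =>
    fs_comp (φ 0) (hφ 0) (hcomb 0) (fs_comp (φ₁ n) (hφ₁ n) (hcomb₁ n) h)
  have t2 : ∀ {S : Set X} (n : ℕ), Fs (e₂ n) S → Fs E S := fun n h =>
    fs_comp (φ 1) (hφ 1) (hcomb 1) (fs_comp (φ₂ n) (hφ₂ n) (hcomb₂ n) h)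
  have hray : ∀ n (a : L n), Fs E ((fun x => (i x).1 n) ⁻¹' Set.Ioi a) ∧
      Fs E ((fun x => (i x).1 n) ⁻¹' Set.Iio a) := fun n a => ⟨t1 n (he' n a).1, t1 n (he' n a).2⟩
  have hZU : ∀ (V : Set (∀ n, Z n)), IsOpen V → ∀ x, (i x).2 ∈ V → ∃ T ⊆ (fun x => (i x).2) ⁻¹' V,
      x ∈ T ∧ IsOpen T ∧ Fs E T := by
    intro V hV x hx
    obtain ⟨I, u, hu, huV⟩ := isOpen_pi_iff.1 hV _ hx
    have hW : ∀ n, ∃ W : Set (Z n), (n ∈ I → W ⊆ u n) ∧ IsOpen W ∧ (i x).2 n ∈ W ∧
        Fs E ((fun x => (i x).2 n) ⁻¹' W) := by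
      intro n
      by_cases hn : n ∈ I
      · obtain ⟨W, h1, h2, h3, h4⟩ := hY₂ n (u n) (hu n hn).1 _ (hu n hn).2
        exact ⟨W, fun _ => h1, h2, h3, t2 n h4⟩
      · obtain ⟨W, h1, h2, h3, h4⟩ := hY₂ n Set.univ isOpen_univ ((i x).2 n) trivial
        exact ⟨W, fun h => absurd h hn, h2, h3, t2 n h4⟩
    choose W h1 h2 h3 h4 using hW
    have h5 : ∀ J : Finset ℕ, J ⊆ I → ∃ T : Set X, (∀ z ∈ T, ∀ n ∈ J, (i z).2 n ∈ W n) ∧ x ∈ T ∧ IsOpen T ∧ Fs E T := by
      intro J
      induction J using Finset.induction_on with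
      | empty =>
        intro _
        refine ⟨Set.univ, by simp, trivial, isOpen_univ, ?_⟩
        have h6 := fs_closed (e := E) (K := Set.univ) isClosed_univ
        rwa [Set.preimage_univ] at h6
      | insert n J hn ih =>
        intro hJ
        obtain ⟨T, k1, k2, k3, k4⟩ := ih ((Finset.subset_insert n J).trans hJ)
        refine ⟨T ∩ (fun x => (i x).2 n) ⁻¹' W n, ?_, ⟨k2, h3 n⟩, k3.inter ((h2 n).preimage (hg2 n)),
          fs_inter k4 (h4 n)⟩
        intro z hz m hm
        rcases Finset.mem_insert.1 hm with rfl | hm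
        · exact hz.2
        · exact k1 z hz.1 m hm
    obtain ⟨T, k1, k2, k3, k4⟩ := h5 I (Finset.Subset.refl I)
    exact ⟨T, fun z hz => huV fun n hn => h1 n hn (k1 z hz n hn), k2, k3, k4⟩
  refine vel hE fun G hG => ?_
  have hloc : ∀ x ∈ G, ∃ T ⊆ G, x ∈ T ∧ IsOpen T ∧ Fs E T := by
    intro x hx
    obtain ⟨W, hW, rfl⟩ := hi.isInducing.isOpen_iff.1 hG
    obtain ⟨U, V, hU, hV, hxU, hxV, hUV⟩ := isOpen_prod_iff.1 hW (i x).1 (i x).2 hx
    obtain ⟨U', hU', hUU, hxU', hTf⟩ := local_fs_map (fun x => (i x).1) hray hU (x := x) hxU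
    obtain ⟨T, k1, k2, k3, k4⟩ := hZU V hV x hxV
    refine ⟨(fun x => (i x).1) ⁻¹' U' ∩ T, ?_, ⟨hxU', k2⟩, (hU'.preimage hi1).inter k3, fs_inter hTf k4⟩
    intro z hz
    exact hUV ⟨hUU hz.1, k1 hz.2⟩
  choose! T hT1 hT2 hT3 hT4 using hloc
  obtain ⟨C, hCG, hC, hcov⟩ := lin_one hs' (S := G) (U := T) fun x hx => ⟨hT3 x hx, hT2 x hx⟩
  have hGe : G = ⋃ x ∈ C, T x := by
    apply Set.Subset.antisymm hcov
    exact Set.iUnion₂_subset fun x hx => hT1 x (hCG hx)
  rw [hGe]
  exact fs_biUnion hC fun x hx => hT4 x (hCG hx)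

end Pool.Agent.Results.MP_8c4e2c_gt.SubspacesOfOrdered
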